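import Mathlib
import Pool.Agent.K4H59.HUDGUpper

/-!
# Hyperbolic uniform disk graphs that need more than logarithmic radius

The cone over the `2 × N` ladder (one vertex joined to all vertices of the ladder) has a disk
representation of radius `N log 4`, and all its disk representations have radius at least
`N / 20 - 1` (`K4H59.HUDG.main_linear`).  In particular the radius is not `O(log n)`.
-/

namespace Pool.Agent.Results.MP_1ad87a_co.NoLogRadius

open K4H59.HUDG

theorem result : ∀ C : ℝ, 0 < C → ∃ (n : ℕ) (G : SimpleGraph (Fin n)), 2 ≤ n ∧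
    (∃ (r : ℝ) (p : Fin n → UpperHalfPlane), IsDiskRep G r p) ∧
    ∀ (r : ℝ) (p : Fin n → UpperHalfPlane), IsDiskRep G r p → C * Real.log n < r := by
  intro C hC
  have hb := Real.isLittleO_log_id_atTop.bound (c := 1 / (60 * C)) (by positivity)
  obtain ⟨B, hB⟩ := Filter.eventually_atTop.1 hb
  obtain ⟨N, hN⟩ := exists_nat_gt (max B 62)
  have hNB : B < N := lt_of_le_of_lt (le_max_left _ _) hN
  have hN62 : (62:ℝ) < N := lt_of_le_of_lt (le_max_right _ _) hN
  have hN1 : 1 ≤ N := by
    by_contra h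
    have : N = 0 := by omega
    rw [this] at hN62; norm_num at hN62
  obtain ⟨G, ⟨p, hp⟩, hG⟩ := main_linear N hN1
  refine ⟨2 * N + 1, G, by omega, ⟨_, p, hp⟩, fun r p h => ?_⟩
  have h1 := hG r p h
  have h2 := hB (2 * N + 1) (by linarith)
  simp only [id_eq, Real.norm_eq_abs] at h2
  rw [abs_of_nonneg (by positivity : (0:ℝ) ≤ 2 * N + 1)] at h2
  have h3 := le_trans (le_abs_self _) h2
  have h4 : C * Real.log (2 * N + 1) ≤ (2 * N + 1) / 60 := by
    calc C * Real.log (2 * N + 1) ≤ C * (1 / (60 * C) * (2 * N + 1)) :=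
          mul_le_mul_of_nonneg_left h3 hC.le
      _ = (2 * N + 1) / 60 := by field_simp
  have h5 : ((2 * N + 1 : ℕ) : ℝ) = 2 * N + 1 := by push_cast; ring
  rw [h5]
  linarith

end Pool.Agent.Results.MP_1ad87a_co.NoLogRadius
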